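import Pool.Agent.R916.OP.Main

/-!
# The `f`-vector of the order polytope of the face lattice of a polygon is log-concave
-/

namespace Pool.Agent.Results.MP_6e91db_co.PolygonLogConcave

/-- The faces of the `n`-gon, given by their vertex sets: the vertices are the elements of `ZMod n`
in cyclic order; the faces are the empty face, the vertices `{i}`, the edges `{i, i + 1}` and the
polygon itself. -/
def IsFace (n : ℕ) (S : Set (ZMod n)) : Prop :=
  S = ∅ ∨ (∃ i, S = {i}) ∨ (∃ i, S = {i, i + 1}) ∨ S = Set.univ

/-- The face lattice of the `n`-gon, ordered by inclusion. -/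
abbrev PolygonFaceLattice (n : ℕ) := {S : Set (ZMod n) // IsFace n S}

/-- The order polytope of a poset `Q`: all `x ∈ [0,1]^Q` with `x_a ≤ x_b` whenever `a ≤ b`. -/
def orderPolytope (Q : Type*) [PartialOrder Q] : Set (Q → ℝ) :=
  {x | (∀ a, 0 ≤ x a ∧ x a ≤ 1) ∧ ∀ a b, a ≤ b → x a ≤ x b}

/-- The `f`-vector of a polytope `K`, with index shifted by one: `fVec K 0 = f₋₁ = 1` (the empty
face), and `fVec K (i + 1) = fᵢ` is the number of `i`-dimensional faces of `K`. The nonempty faces
are the nonempty exposed subsets, i.e. the sets of maximisers over `K` of a linear functional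
(`K` itself included), and the dimension of a face is the dimension of its affine hull. -/
noncomputable def fVec {V : Type*} [AddCommGroup V] [Module ℝ V] [TopologicalSpace V] (K : Set V) :
    ℕ → ℕ
  | 0 => 1
  | (i + 1) => Set.ncard {F : Set V | F.Nonempty ∧ IsExposed ℝ K F ∧
      Module.finrank ℝ (vectorSpan ℝ F) = i}

/-- For every `n ≥ 3`, the `f`-vector of the order polytope `K` of the face lattice of the `n`-gon
is log-concave: its entries `f₋₁, f₀, …, f_d`, `d = 2n + 2 = dim K`, are positive (and there are no
faces of larger dimension), and `fᵢ² ≥ fᵢ₋₁ fᵢ₊₁` for all `i ≥ 0`. -/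
theorem result (n : ℕ) (hn : 3 ≤ n) :
    (∀ i, 0 < fVec (orderPolytope (PolygonFaceLattice n)) i ↔ i ≤ 2 * n + 3) ∧
    (∀ i, fVec (orderPolytope (PolygonFaceLattice n)) i *
        fVec (orderPolytope (PolygonFaceLattice n)) (i + 2) ≤
      fVec (orderPolytope (PolygonFaceLattice n)) (i + 1) ^ 2) := by
  have h := Pool.Agent.R916.OP.main hn
  refine ⟨fun i => ?_, h.2.2⟩
  constructor
  · intro hi
    by_contra hlt
    push Not at hlt
    have h0 : fVec (orderPolytope (PolygonFaceLattice n)) i = 0 := h.2.1 i hlt
    omega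
  · exact h.1 i

end Pool.Agent.Results.MP_6e91db_co.PolygonLogConcave
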